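import Pool.Agent.helper76.SJ.ZSpec

/-!
# Project sj, module ZB1: the area formula with multiplicities
-/

namespace Pool.Agent.HC.SJ

open scoped Matrix ComplexConjugate Classical ENNReal Topology NNReal
open Filter MeasureTheory

section area

variable {E : Type*} [NormedAddCommGroup E] [NormedSpace ℝ E] [FiniteDimensional ℝ E]
  [MeasurableSpace E] [BorelSpace E]

/-- a small number for every linear map -/
theorem ZB1_rad (A : E →L[ℝ] E) : ∃ r : ℝ≥0, r ≠ 0 ∧ ∀ B : E ≃L[ℝ] E, (B : E →L[ℝ] E) = A →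
    (Subsingleton E ∨ r < ‖(B.symm : E →L[ℝ] E)‖₊⁻¹) := by
  rcases subsingleton_or_nontrivial E with h | h
  · exact ⟨1, one_ne_zero, fun _ _ => Or.inl h⟩
  · by_cases hB : ∃ B : E ≃L[ℝ] E, (B : E →L[ℝ] E) = A
    · obtain ⟨B, hB⟩ := hB
      have hpos : 0 < ‖(B.symm : E →L[ℝ] E)‖₊ := B.nnnorm_symm_pos
      have hpos' : 0 < ‖(B.symm : E →L[ℝ] E)‖₊⁻¹ := inv_pos.2 hpos
      refine ⟨‖(B.symm : E →L[ℝ] E)‖₊⁻¹ / 2, (half_pos hpos').ne', fun B' hB' => Or.inr ?_⟩
      have : B' = B := ContinuousLinearEquiv.coe_injective (hB'.trans hB.symm)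
      rw [this]
      exact NNReal.half_lt_self hpos'.ne'
    · exact ⟨1, one_ne_zero, fun B hB' => absurd ⟨B, hB'⟩ hB⟩

/-- the number of preimages -/
theorem ZB1_card (F : E → E) (S : Set E) (t : ℕ → Set E) (hd : Pairwise (Function.onFun Disjoint t))
    (hS : S ⊆ ⋃ n, t n) (hinj : ∀ n, Set.InjOn F (S ∩ t n)) (y : E) :
    ∑' n, (F '' (S ∩ t n)).indicator (fun _ => (1 : ℝ≥0∞)) y =
      (({c ∈ S | F c = y}.encard : ℕ∞) : ℝ≥0∞) := by
  -- the index of a preimage
  have hex : ∀ c, ∃ n, c ∈ S → c ∈ t n := by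
    intro c
    by_cases hc : c ∈ S
    · obtain ⟨n, hn⟩ := Set.mem_iUnion.1 (hS hc)
      exact ⟨n, fun _ => hn⟩
    · exact ⟨0, fun h => absurd h hc⟩
  choose ι hι using hex
  have hιinj : Set.InjOn ι {c ∈ S | F c = y} := by
    rintro c ⟨hc, hcy⟩ c' ⟨hc', hcy'⟩ h
    have h1 := hι c hc
    have h2 := hι c' hc'
    rw [← h] at h2
    exact hinj (ι c) ⟨hc, h1⟩ ⟨hc', h2⟩ (hcy.trans hcy'.symm)
  have himage : ι '' {c ∈ S | F c = y} = {n | y ∈ F '' (S ∩ t n)} := by
    ext n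
    constructor
    · rintro ⟨c, ⟨hc, hcy⟩, rfl⟩
      exact ⟨c, ⟨hc, hι c hc⟩, hcy⟩
    · rintro ⟨c, ⟨hc, hct⟩, hcy⟩
      refine ⟨c, ⟨hc, hcy⟩, ?_⟩
      by_contra hne
      exact Set.disjoint_left.1 (hd hne) (hι c hc) hct
  rw [← hιinj.encard_image, himage, ← ENNReal.tsum_set_one, tsum_subtype {n | y ∈ F '' (S ∩ t n)}
    (fun _ => (1 : ℝ≥0∞))]
  refine tsum_congr fun n => ?_
  by_cases h : y ∈ F '' (S ∩ t n)
  · rw [Set.indicator_of_mem h, Set.indicator_of_mem (show n ∈ {n | y ∈ F '' (S ∩ t n)} from h)]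
  · rw [Set.indicator_of_notMem h,
      Set.indicator_of_notMem (show n ∉ {n | y ∈ F '' (S ∩ t n)} from h)]

/-- Area formula with multiplicities, nonsingular points. -/
theorem ZB1_area (μ : Measure E) [μ.IsAddHaarMeasure] (F : E → E) (F' : E → E →L[ℝ] E) (S : Set E)
    (hS : MeasurableSet S) (hF : ∀ x ∈ S, HasFDerivWithinAt F (F' x) S x)
    (hdet : ∀ x ∈ S, (F' x).det ≠ 0) (g : E → ℝ≥0∞) (hg : Measurable g) :
    ∫⁻ c in S, ENNReal.ofReal |(F' c).det| * g (F c) ∂μ =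
      ∫⁻ y, g y * (({c ∈ S | F c = y}.encard : ℕ∞) : ℝ≥0∞) ∂μ ∧
    Measurable (fun y => (({c ∈ S | F c = y}.encard : ℕ∞) : ℝ≥0∞)) := by
  rcases S.eq_empty_or_nonempty with hE | hne
  · subst hE
    simp
  choose r hr0 hr using (ZB1_rad : ∀ A : E →L[ℝ] E, _)
  obtain ⟨t, A, hd, htm, hSt, hA, hAF⟩ :=
    exists_partition_approximatesLinearOn_of_hasFDerivWithinAt F S F' hF r hr0
  have hinj : ∀ n, Set.InjOn F (S ∩ t n) := by
    intro n
    obtain ⟨y, hy, hAy⟩ := hAF hne n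
    have hB := ContinuousLinearMap.coe_toContinuousLinearEquivOfDetNeZero (F' y) (hdet y hy)
    have h1 := hr (A n) ((F' y).toContinuousLinearEquivOfDetNeZero (hdet y hy)) (hB.trans hAy.symm)
    have h2 := hA n
    rw [← hB.trans hAy.symm] at h2
    refine h2.injOn ?_
    rw [hB.trans hAy.symm]
    exact h1
  have hm : ∀ n, MeasurableSet (S ∩ t n) := fun n => hS.inter (htm n)
  have hF' : ∀ n, ∀ x ∈ S ∩ t n, HasFDerivWithinAt F (F' x) (S ∩ t n) x := fun n x hx =>
    (hF x hx.1).mono Set.inter_subset_left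
  have hmi : ∀ n, MeasurableSet (F '' (S ∩ t n)) := fun n =>
    measurable_image_of_fderivWithin (hm n) (hF' n) (hinj n)
  have hSu : S = ⋃ n, (S ∩ t n) := by
    rw [← Set.inter_iUnion, Set.inter_eq_left.2 hSt]
  have hdis : Pairwise (Function.onFun Disjoint fun n => S ∩ t n) := fun i j hij =>
    (hd hij).mono Set.inter_subset_right Set.inter_subset_right
  refine ⟨?_, ?_⟩
  swap
  · have h1 : (fun y => (({c ∈ S | F c = y}.encard : ℕ∞) : ℝ≥0∞)) =
        fun y => ∑' n, (F '' (S ∩ t n)).indicator (fun _ => (1 : ℝ≥0∞)) y := by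
      funext y
      exact (ZB1_card F S t hd hSt hinj y).symm
    rw [h1]
    exact Measurable.ennreal_tsum fun n => measurable_const.indicator (hmi n)
  calc ∫⁻ c in S, ENNReal.ofReal |(F' c).det| * g (F c) ∂μ
      = ∫⁻ c in ⋃ n, (S ∩ t n), ENNReal.ofReal |(F' c).det| * g (F c) ∂μ := by rw [← hSu]
    _ = ∑' n, ∫⁻ c in S ∩ t n, ENNReal.ofReal |(F' c).det| * g (F c) ∂μ :=
        lintegral_iUnion hm hdis _
    _ = ∑' n, ∫⁻ y in F '' (S ∩ t n), g y ∂μ := by
        refine tsum_congr fun n => ?_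
        rw [lintegral_image_eq_lintegral_abs_det_fderiv_mul μ (hm n) (hF' n) (hinj n)]
    _ = ∑' n, ∫⁻ y, g y * (F '' (S ∩ t n)).indicator (fun _ => (1 : ℝ≥0∞)) y ∂μ := by
        refine tsum_congr fun n => ?_
        rw [← lintegral_indicator (hmi n)]
        refine lintegral_congr fun y => ?_
        by_cases h : y ∈ F '' (S ∩ t n)
        · rw [Set.indicator_of_mem h, Set.indicator_of_mem h, mul_one]
        · rw [Set.indicator_of_notMem h, Set.indicator_of_notMem h, mul_zero]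
    _ = ∫⁻ y, ∑' n, g y * (F '' (S ∩ t n)).indicator (fun _ => (1 : ℝ≥0∞)) y ∂μ := by
        rw [lintegral_tsum]
        intro n
        exact (hg.mul (measurable_const.indicator (hmi n))).aemeasurable
    _ = _ := by
        refine lintegral_congr fun y => ?_
        rw [ENNReal.tsum_mul_left, ZB1_card F S t hd hSt hinj y]

end area

theorem ZB1 (h0 : ZB0_stmt) : ZB1_stmt := by
  intro n U E F M g hU hEU hE hg hF
  set F' : (Fin n → ℂ) → (Fin n → ℂ) →L[ℝ] (Fin n → ℂ) := fun c =>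
    (Matrix.mulVecLin (M c)).toContinuousLinearMap.restrictScalars ℝ with hF'
  have hFR : ∀ c ∈ U, HasFDerivAt F (F' c) c := fun c hc => (hF c hc).restrictScalars ℝ
  have hdetF : ∀ c, |(F' c).det| = ‖(M c).det‖ ^ 2 := fun c => h0 n (M c)
  have hz : ∀ c, (F' c).det ≠ 0 ↔ (M c).det ≠ 0 := by
    intro c
    have := hdetF c
    constructor
    · intro h1 h2
      rw [h2, norm_zero] at this
      exact h1 (abs_eq_zero.1 (by rw [this]; norm_num))
    · intro h1 h2
      rw [h2, abs_zero] at this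
      have h3 : ‖(M c).det‖ = 0 := by
        have := pow_eq_zero_iff (two_ne_zero) |>.1 this.symm
        exact this
      exact h1 (norm_eq_zero.1 h3)
  -- the nonsingular points
  set S : Set (Fin n → ℂ) := E ∩ {c | (fderiv ℝ F c).det ≠ 0} with hSdef
  have hmeas : Measurable fun c => (fderiv ℝ F c).det :=
    (ContinuousLinearMap.continuous_det).measurable.comp (measurable_fderiv ℝ F)
  have hSm : MeasurableSet S := hE.inter (hmeas (measurableSet_singleton 0).compl)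
  have hfd : ∀ c ∈ E, fderiv ℝ F c = F' c := fun c hc => (hFR c (hEU hc)).fderiv
  have hS1 : ∀ c, c ∈ S ↔ c ∈ E ∧ (M c).det ≠ 0 := by
    intro c
    constructor
    · rintro ⟨h1, h2⟩
      rw [Set.mem_setOf_eq, hfd c h1, hz] at h2
      exact ⟨h1, h2⟩
    · rintro ⟨h1, h2⟩
      refine ⟨h1, ?_⟩
      rw [Set.mem_setOf_eq, hfd c h1, hz]
      exact h2
  obtain ⟨key, key2⟩ := ZB1_area volume F F' S hSm (fun c hc => (hFR c (hEU hc.1)).hasFDerivWithinAt)
    (fun c hc => (hz c).2 ((hS1 c).1 hc).2) g hg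
  have e1 : ∫⁻ c in E, g (F c) * ENNReal.ofReal (‖(M c).det‖ ^ 2) =
      ∫⁻ c in S, ENNReal.ofReal |(F' c).det| * g (F c) := by
    rw [← lintegral_indicator hE, ← lintegral_indicator hSm]
    refine lintegral_congr fun c => ?_
    by_cases h : c ∈ S
    · rw [Set.indicator_of_mem h, Set.indicator_of_mem h.1, hdetF, mul_comm]
    · rw [Set.indicator_of_notMem h]
      by_cases h' : c ∈ E
      · rw [Set.indicator_of_mem h']
        have h2 : (M c).det = 0 := by
          by_contra h3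
          exact h ((hS1 c).2 ⟨h', h3⟩)
        rw [h2]
        simp
      · rw [Set.indicator_of_notMem h']
  have hset : ∀ y, {c ∈ S | F c = y} = {c ∈ E | F c = y ∧ (M c).det ≠ 0} := by
    intro y
    ext c
    constructor
    · rintro ⟨h1, h2⟩
      exact ⟨((hS1 c).1 h1).1, h2, ((hS1 c).1 h1).2⟩
    · rintro ⟨h1, h2, h3⟩
      exact ⟨(hS1 c).2 ⟨h1, h3⟩, h2⟩
  refine ⟨?_, ?_⟩
  · rw [e1, key]
    refine lintegral_congr fun y => ?_
    rw [hset y]
  · have h1 : (fun y => (({c ∈ E | F c = y ∧ (M c).det ≠ 0}.encard : ℕ∞) : ℝ≥0∞)) =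
        fun y => (({c ∈ S | F c = y}.encard : ℕ∞) : ℝ≥0∞) := by
      funext y
      rw [hset y]
    rw [h1]
    exact key2

end Pool.Agent.HC.SJ
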